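import Pool.Agent.helper96.Slope.Defs
import Pool.Agent.helper35.LinPrimes.Sieve

/-!
# Slopes: upper bound sieve for one tuple (module SV)
-/

namespace Pool.Agent.helper96.Slope

open Finset Pool.Agent.Lib.BrunHooley
open Pool.Agent.helper35.LinPrimes (h h_pos one_le_h one_le_inv one_sub_inv_pos pick_r)

/-- sieve product, `k` residue classes outside the divisors of `n`. -/
lemma sv_prod (k z n : ℕ) (hz : 1 ≤ z) (hn : n ≠ 0) (w : ℕ → ℕ)
    (hw : ∀ l, l.Prime → ¬ l ∣ n → w l = k) (hwl : ∀ l, l.Prime → w l < l) :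
    ∏ l ∈ Nat.primesLE z, (1 - (w l : ℝ) / l) ≤ h n ^ k / Real.log (z + 1) ^ k := by
  have hlog : 0 < Real.log (z + 1) := Real.log_pos (by
    have : (1 : ℝ) ≤ z := by exact_mod_cast hz
    linarith)
  have h1 : ∀ l ∈ Nat.primesLE z, (1 - (w l : ℝ) / l)
      ≤ (1 - 1 / (l : ℝ)) ^ k * (if l ∣ n then (1 - 1 / (l : ℝ))⁻¹ else 1) ^ k := by
    intro l hl
    have hlp := (Nat.mem_primesLE.mp hl).2
    have hl0 : (0 : ℝ) < l := by exact_mod_cast hlp.pos
    rw [← mul_pow]
    split_ifs with hd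
    · rw [mul_inv_cancel₀ (one_sub_inv_pos hlp).ne', one_pow]
      have : 0 ≤ (w l : ℝ) / l := by positivity
      linarith
    · rw [mul_one, hw l hlp hd]
      have h2 : (-2 : ℝ) ≤ -(1 / (l : ℝ)) := by
        have : 1 / (l : ℝ) ≤ 1 := by
          rw [div_le_one hl0]
          exact_mod_cast hlp.one_le
        linarith
      have h3 := one_add_mul_le_pow h2 k
      have e1 : (1 : ℝ) + k * -(1 / (l : ℝ)) = 1 - k / l := by ring
      have e2 : (1 : ℝ) + -(1 / (l : ℝ)) = 1 - 1 / l := by ring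
      rw [e1, e2] at h3
      exact h3
  have h0 : ∀ l ∈ Nat.primesLE z, 0 ≤ (1 - (w l : ℝ) / l) := by
    intro l hl
    have hlp := (Nat.mem_primesLE.mp hl).2
    have hl0 : (0 : ℝ) < l := by exact_mod_cast hlp.pos
    rw [sub_nonneg, div_le_one hl0]
    exact_mod_cast (hwl l hlp).le
  refine (prod_le_prod h0 h1).trans ?_
  rw [prod_mul_distrib, prod_pow, prod_pow]
  have h2 := Pool.Agent.Lib.PrimeSums.prod_one_sub_le z hz
  have h2' : 0 ≤ ∏ l ∈ Nat.primesLE z, (1 - 1 / (l : ℝ)) :=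
    prod_nonneg fun l hl => (one_sub_inv_pos (Nat.mem_primesLE.mp hl).2).le
  have h3 : ∏ l ∈ Nat.primesLE z, (if l ∣ n then (1 - 1 / (l : ℝ))⁻¹ else 1) ≤ h n := by
    rw [← prod_filter, h]
    refine Finset.prod_le_prod_of_subset_of_one_le ?_ ?_ ?_
    · intro l hl
      rw [mem_filter, Nat.mem_primesLE] at hl
      exact Nat.mem_primeFactors.mpr ⟨hl.1.2, hl.2, hn⟩
    · intro l hl
      rw [mem_filter, Nat.mem_primesLE] at hl
      exact zero_le_one.trans (one_le_inv hl.1.2)
    · intro l hl _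
      exact one_le_inv (Nat.prime_of_mem_primeFactors hl)
  have h4 : 0 ≤ ∏ l ∈ Nat.primesLE z, (if l ∣ n then (1 - 1 / (l : ℝ))⁻¹ else 1) := by
    refine prod_nonneg fun l hl => ?_
    split_ifs
    · exact zero_le_one.trans (one_le_inv (Nat.mem_primesLE.mp hl).2)
    · exact zero_le_one
  calc _ ≤ (1 / Real.log (z + 1)) ^ k * h n ^ k :=
        mul_le_mul (pow_le_pow_left₀ h2' h2 k) (pow_le_pow_left₀ h4 h3 k) (by positivity)
          (by positivity)
    _ = _ := by rw [one_div, inv_pow]; ring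

lemma sv_D_ne_zero {k : ℕ} {a : Fin k → ℕ} {c : ℤ} (hc : c ≠ 0) (ha : ∀ i, 0 < a i)
    (hi : Function.Injective a) : D a c ≠ 0 := by
  unfold D
  refine Nat.mul_ne_zero (Nat.mul_ne_zero (Nat.mul_ne_zero (Int.natAbs_ne_zero.mpr hc)
    (Nat.factorial_ne_zero k)) ?_) ?_
  · exact prod_ne_zero_iff.mpr fun i _ => (ha i).ne'
  · refine prod_ne_zero_iff.mpr fun x hx => ?_
    rw [mem_offDiag] at hx
    rw [Int.natAbs_ne_zero]
    intro h0
    exact hx.2.2 (hi (by omega))

lemma sv_sub_dvd {k : ℕ} {a : Fin k → ℕ} {c : ℤ} {l : ℕ} {i j : Fin k} (hij : i ≠ j)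
    (h0 : (l : ℤ) ∣ (a i : ℤ) - a j) : l ∣ D a c := by
  unfold D
  refine Dvd.dvd.mul_left ?_ _
  refine dvd_trans (Int.natCast_dvd.mp h0) ?_
  have hmem : (i, j) ∈ (univ : Finset (Fin k)).offDiag :=
    mem_offDiag.mpr ⟨mem_univ i, mem_univ j, hij⟩
  exact dvd_prod_of_mem (fun x : Fin k × Fin k => ((a x.1 : ℤ) - a x.2).natAbs) hmem

theorem sieve_upper (k : ℕ) : ∃ C : ℝ, 0 < C ∧ ∀ c : ℤ, c ≠ 0 → ∃ N₀ : ℕ, ∀ N ≥ N₀,
    ∀ a : Fin k → ℕ, (∀ i, 0 < a i) → Function.Injective a →
    (R a c N : ℝ) ≤ C * h (D a c) ^ k * N / Real.log N ^ k := by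
  classical
  obtain ⟨B, hB⟩ := interval_sieve k
  -- logarithms are small
  have hlogev : ∃ X₀ : ℝ, ∀ x ≥ X₀, Real.log x ^ k ≤ x := by
    have h1 := (Real.isLittleO_pow_log_id_atTop (n := k)).bound (zero_lt_one)
    rw [Filter.eventually_atTop] at h1
    obtain ⟨X₀, hX₀⟩ := h1
    refine ⟨max X₀ 1, fun x hx => ?_⟩
    have h2 := hX₀ x ((le_max_left _ _).trans hx)
    have hx1 : (1 : ℝ) ≤ x := (le_max_right _ _).trans hx
    have h3 : 0 ≤ Real.log x ^ k := pow_nonneg (Real.log_nonneg hx1) k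
    rw [one_mul, Real.norm_of_nonneg h3, id, Real.norm_of_nonneg (by linarith)] at h2
    exact h2
  obtain ⟨X₀, hX₀⟩ := hlogev
  refine ⟨2 * (16 * (B + 1)) ^ k + 3 * 2 ^ k, by positivity, ?_⟩
  intro c hc
  refine ⟨max (max ((4 ^ (B + 1)) ^ 2) (c.natAbs ^ 2)) (⌈X₀ ^ 2⌉₊ + 16), ?_⟩
  intro N hN a ha hinj
  have hN1 : (4 ^ (B + 1)) ^ 2 ≤ N := (le_max_left _ _).trans ((le_max_left _ _).trans hN)
  have hN2 : c.natAbs ^ 2 ≤ N := (le_max_right _ _).trans ((le_max_left _ _).trans hN)
  have hN3 : ⌈X₀ ^ 2⌉₊ + 16 ≤ N := (le_max_right _ _).trans hN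
  have hN16 : 16 ≤ N := by omega
  set d := D a c with hd
  have hd0 : d ≠ 0 := sv_D_ne_zero hc ha hinj
  have hhd := one_le_h d
  set y := Nat.sqrt N with hy
  have hyB : 4 ^ (B + 1) ≤ y := Nat.le_sqrt'.mpr hN1
  obtain ⟨r, hr1, hr2⟩ := pick_r B y hyB
  set z := Z r with hz
  have hz2 : 2 ≤ z := two_le_Z r
  have hzy : z ≤ y := (Nat.le_self_pow (by omega) z).trans hr1
  -- the classes
  set C : ℕ → Finset ℕ := fun l => if l ∣ d then ∅ else
    univ.image fun i : Fin k => ((-(c : ZMod l)) * (a i : ZMod l)⁻¹).val with hC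
  have hcard : ∀ l, l.Prime → ¬ l ∣ d → #(C l) = k := by
    intro l hl hld
    have : Fact l.Prime := ⟨hl⟩
    simp only [hC, if_neg hld]
    rw [card_image_of_injective, card_univ, Fintype.card_fin]
    intro i j hij
    by_contra hne
    have h1 : (-(c : ZMod l)) * (a i : ZMod l)⁻¹ = (-(c : ZMod l)) * (a j : ZMod l)⁻¹ :=
      ZMod.val_injective l hij
    have hcl : (c : ZMod l) ≠ 0 := by
      intro h0
      rw [ZMod.intCast_zmod_eq_zero_iff_dvd] at h0
      apply hld
      rw [hd]; unfold D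
      exact (((Int.natCast_dvd.mp h0).mul_right _).mul_right _).mul_right _
    have haz : ∀ i, (a i : ZMod l) ≠ 0 := by
      intro i h0
      rw [ZMod.natCast_eq_zero_iff] at h0
      apply hld
      rw [hd]; unfold D
      exact ((h0.trans (dvd_prod_of_mem a (mem_univ i))).mul_left _).mul_right _
    have h2 : (a i : ZMod l) = a j := by
      have h3 := mul_left_cancel₀ (neg_ne_zero.mpr hcl) h1
      exact inv_injective h3
    apply hld
    refine sv_sub_dvd hne ?_
    rw [← ZMod.intCast_zmod_eq_zero_iff_dvd]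
    push_cast
    rw [h2, sub_self]
  have hCk : ∀ l, #(C l) ≤ k := by
    intro l
    simp only [hC]
    split_ifs
    · simp
    · refine card_image_le.trans ?_
      rw [card_univ, Fintype.card_fin]
  have hClt : ∀ l, l.Prime → ∀ x ∈ C l, x < l := by
    intro l hl x hx
    have : NeZero l := ⟨hl.ne_zero⟩
    simp only [hC] at hx
    split_ifs at hx with h'
    · simp at hx
    · rw [mem_image] at hx
      obtain ⟨i, _, rfl⟩ := hx
      exact ZMod.val_lt _
  have hCl : ∀ l, l.Prime → #(C l) < l := by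
    intro l hl
    by_cases hld : l ∣ d
    · have : #(C l) = 0 := by simp [hC, hld]
      rw [this]; exact hl.pos
    · rw [hcard l hl hld]
      by_contra hlk
      push Not at hlk
      apply hld
      have h1 : l ∣ k.factorial := (Nat.Prime.dvd_factorial hl).mpr hlk
      rw [hd]; unfold D
      exact ((h1.mul_left _).mul_right _).mul_right _
  have hs := (hB r 0 N C hClt hCk hCl).2
  have hprod := sv_prod k z d (by omega) hd0 (fun l => #(C l)) hcard hCl
  -- counting
  have hcount : R a c N ≤ (z + c.natAbs) + #(sifted 0 N z C) := by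
    unfold R
    have hsub : #{n ∈ Icc (1 : ℤ) N | ∀ i, IsP ((a i : ℤ) * n + c)}
        ≤ #(Icc 1 (z + c.natAbs) ∪ sifted 0 N z C) := by
      refine card_le_card_of_injOn Int.toNat ?_ ?_
      · intro m hm
        rw [mem_coe, mem_filter, mem_Icc] at hm
        obtain ⟨⟨hm1, hmN⟩, hmP⟩ := hm
        obtain ⟨n, rfl⟩ : ∃ n : ℕ, m = n := ⟨m.toNat, (Int.toNat_of_nonneg (by omega)).symm⟩
        have hn1 : 1 ≤ n := by exact_mod_cast hm1
        have hnN : n ≤ N := by exact_mod_cast hmN
        rw [mem_coe, Int.toNat_natCast, mem_union, mem_Icc]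
        rcases Nat.lt_or_ge (z + c.natAbs) n with hlt | hge
        · right
          rw [sifted, mem_filter, mem_Ioc, zero_add]
          refine ⟨⟨by omega, hnN⟩, ?_⟩
          intro l hl hmem
          obtain ⟨hlz, hlp⟩ := Nat.mem_primesLE.mp hl
          have : Fact l.Prime := ⟨hlp⟩
          have : NeZero l := ⟨hlp.ne_zero⟩
          simp only [hC] at hmem
          split_ifs at hmem with hld
          · simp at hmem
          · rw [mem_image] at hmem
            obtain ⟨i, _, hi⟩ := hmem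
            have h1 : (n : ZMod l) = (-(c : ZMod l)) * (a i : ZMod l)⁻¹ := by
              have := congrArg (fun t : ℕ => (t : ZMod l)) hi.symm
              simp only [ZMod.natCast_mod, ZMod.natCast_val, ZMod.cast_id', id_eq] at this
              exact this
            have haz : (a i : ZMod l) ≠ 0 := by
              intro h0
              rw [ZMod.natCast_eq_zero_iff] at h0
              apply hld
              rw [hd]; unfold D
              exact ((h0.trans (dvd_prod_of_mem a (mem_univ i))).mul_left _).mul_right _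
            have h2 : (((a i : ℤ) * n + c : ℤ) : ZMod l) = 0 := by
              push_cast
              rw [h1]
              field_simp
              ring
            rw [ZMod.intCast_zmod_eq_zero_iff_dvd] at h2
            have hpr := hmP i
            unfold IsP at hpr
            have hge1 : (n : ℤ) ≤ (a i : ℤ) * n := by
              have : (1 : ℤ) ≤ a i := by exact_mod_cast ha i
              nlinarith
            have habs : -(c.natAbs : ℤ) ≤ c := by omega
            have hpos : (z : ℤ) < (a i : ℤ) * n + c := by omega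
            have h3 : l ∣ ((a i : ℤ) * n + c).toNat := by
              have h4 : (((a i : ℤ) * n + c).toNat : ℤ) = (a i : ℤ) * n + c :=
                Int.toNat_of_nonneg (by omega)
              rw [← h4] at h2
              exact_mod_cast h2
            have h5 := (Nat.prime_dvd_prime_iff_eq hlp hpr).mp h3
            omega
        · left
          exact ⟨hn1, hge⟩
      · intro m hm m' hm' hmm
        rw [mem_coe, mem_filter, mem_Icc] at hm hm'
        omega
    refine hsub.trans ((card_union_le _ _).trans ?_)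
    rw [Nat.card_Icc]
    omega
  -- real estimates
  have hNr : (0 : ℝ) < N := by exact_mod_cast (by omega : 0 < N)
  set s := Real.sqrt N with hs_def
  have hs0 : 0 < s := Real.sqrt_pos.mpr hNr
  have hs2 : s ^ 2 = N := Real.sq_sqrt hNr.le
  have hys : (y : ℝ) ≤ s := by
    rw [hs_def, hy]
    exact Real.nat_sqrt_le_real_sqrt
  have hy4 : 4 ≤ y := by
    rw [hy]
    exact Nat.le_sqrt'.mpr (by omega)
  have hyr : (4 : ℝ) ≤ y := by exact_mod_cast hy4
  have hlogN : 0 < Real.log N := Real.log_pos (by exact_mod_cast (by omega : 1 < N))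
  have hlogz : 0 < Real.log ((z : ℝ) + 1) := Real.log_pos (by
    have : (2 : ℝ) ≤ z := by exact_mod_cast hz2
    linarith)
  have hlog1 : Real.log N ≤ 16 * (B + 1) * Real.log (z + 1) := by
    have h1 : (N : ℝ) ≤ (y : ℝ) ^ 4 := by
      have h2 : N < (y + 1) * (y + 1) := Nat.lt_succ_sqrt N
      have h3 : (y + 1) * (y + 1) ≤ y ^ 4 := by
        have h4 : y + 1 ≤ y ^ 2 := by nlinarith
        calc (y + 1) * (y + 1) ≤ y ^ 2 * y ^ 2 := Nat.mul_le_mul h4 h4
          _ = y ^ 4 := by ring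
      exact_mod_cast (h2.le.trans h3)
    have h2 : Real.log N ≤ 4 * Real.log y := by
      have := Real.log_le_log hNr h1
      rw [Real.log_pow] at this
      push_cast at this
      exact this
    have h3 : Real.log z ≤ Real.log (z + 1) := Real.log_le_log (by positivity) (by linarith)
    have h4 : 4 * ((B : ℝ) + 1) * Real.log z ≤ 4 * (B + 1) * Real.log (z + 1) := by gcongr
    have h5 : Real.log y ≤ 4 * (B + 1) * Real.log (z + 1) := hr2.trans h4
    linarith
  have hlogk : Real.log N ^ k ≤ 2 ^ k * s := by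
    have h1 : X₀ ≤ s := by
      rcases le_or_gt X₀ 0 with h0 | h0
      · linarith
      · have h2 : X₀ ^ 2 ≤ s ^ 2 := by
          rw [hs2]
          have h3 : X₀ ^ 2 ≤ (⌈X₀ ^ 2⌉₊ : ℝ) := Nat.le_ceil _
          have h4 : (⌈X₀ ^ 2⌉₊ : ℝ) ≤ N := by exact_mod_cast (by omega : ⌈X₀ ^ 2⌉₊ ≤ N)
          linarith
        exact (pow_le_pow_iff_left₀ h0.le hs0.le (by norm_num)).mp h2
    have h2 : Real.log N = 2 * Real.log s := by
      rw [← hs2, Real.log_pow]; push_cast; ring
    rw [h2, mul_pow]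
    exact mul_le_mul_of_nonneg_left (hX₀ s h1) (by positivity)
  have hzs : (z : ℝ) ≤ s := le_trans (by exact_mod_cast hzy) hys
  have hzB : (z : ℝ) ^ B ≤ s := by
    have h1 : z ^ B ≤ y := (Nat.pow_le_pow_right (by omega) (by omega)).trans hr1
    exact le_trans (by exact_mod_cast h1) hys
  have hcs : (c.natAbs : ℝ) ≤ s := by
    have h1 : c.natAbs ≤ y := Nat.le_sqrt'.mpr hN2
    exact le_trans (by exact_mod_cast h1) hys
  have hsmall : 3 * s ≤ 3 * 2 ^ k * h d ^ k * N / Real.log N ^ k := by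
    rw [le_div_iff₀ (by positivity)]
    have h1 : 1 ≤ h d ^ k := one_le_pow₀ hhd
    calc 3 * s * Real.log N ^ k ≤ 3 * s * (2 ^ k * s) := by gcongr
      _ = 3 * 2 ^ k * 1 * N := by rw [← hs2]; ring
      _ ≤ 3 * 2 ^ k * h d ^ k * N := by gcongr
  have hmain : 2 * (N : ℝ) * ∏ l ∈ Nat.primesLE z, (1 - ((#(C l) : ℕ) : ℝ) / l)
      ≤ 2 * (16 * (B + 1)) ^ k * h d ^ k * N / Real.log N ^ k := by
    have h1 : h d ^ k / Real.log (z + 1) ^ k ≤ (16 * (B + 1)) ^ k * h d ^ k / Real.log N ^ k := by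
      rw [div_le_div_iff₀ (by positivity) (by positivity)]
      have h2 : Real.log N ^ k ≤ (16 * (B + 1) * Real.log (z + 1)) ^ k :=
        pow_le_pow_left₀ hlogN.le hlog1 k
      have h3 : 0 ≤ h d ^ k := by positivity
      calc h d ^ k * Real.log N ^ k ≤ h d ^ k * (16 * (B + 1) * Real.log (z + 1)) ^ k := by gcongr
        _ = _ := by rw [mul_pow]; ring
    calc 2 * (N : ℝ) * ∏ l ∈ Nat.primesLE z, (1 - ((#(C l) : ℕ) : ℝ) / l)
        ≤ 2 * (N : ℝ) * ((16 * (B + 1)) ^ k * h d ^ k / Real.log N ^ k) := by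
          gcongr
          exact hprod.trans h1
      _ = _ := by ring
  have hcount' : (R a c N : ℝ) ≤ (z + c.natAbs) + #(sifted 0 N z C) := by exact_mod_cast hcount
  calc (R a c N : ℝ) ≤ (z + c.natAbs) + #(sifted 0 N z C) := hcount'
    _ ≤ (s + s) + (2 * (N : ℝ) * ∏ l ∈ Nat.primesLE z, (1 - ((#(C l) : ℕ) : ℝ) / l) + s) := by
        gcongr
        exact hs.trans (by gcongr)
    _ ≤ 3 * s + 2 * (16 * (B + 1)) ^ k * h d ^ k * N / Real.log N ^ k := by linarith
    _ ≤ 3 * 2 ^ k * h d ^ k * N / Real.log N ^ k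
        + 2 * (16 * (B + 1)) ^ k * h d ^ k * N / Real.log N ^ k := by linarith
    _ = _ := by ring

end Pool.Agent.helper96.Slope
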